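import Mathlib
import Pool.Agent.K1H84.RD.Dig
import Pool.Agent.K1H26.RD.Fin
import Pool.Agent.K1H40.RD.Sp
import Pool.Agent.K1H33.RD.L1
import Pool.Agent.K1H33.RD.Theta
import Pool.Agent.K1H33.RD.Fin
import Pool.Agent.K1H92.RD.Shell

set_option autoImplicit false

/-!
# `R(x, y)` on average over EVERY translate of sparse sets of integers with restricted digits

`R(x, y) = (π(x + y) - π(x)) / (y / log x)`. Let `θ > 4 / 5`, `t ≥ 1` and let the base `g` be large. Let
`S = {s < g ^ k : the i-th digit of s in base g belongs to D i}`, where every `D i` consists of at least `g ^ θ` digits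
and is a union of at most `t` intervals of digits (for instance all digits but at most `t - 1` of them, or the digits
below `g ^ θ`); so `|S| ≥ N ^ θ`, `N = g ^ k`, and usually `|S|` is smaller than `N` by a power of `N`. For EVERY integer
`1 ≤ b ≤ N`, without exceptions, and simultaneously for all real `y` with `(log N) ^ K ≤ y ≤ N`, the mean of `R(x, y)`
over the points `x = s + b`, `s ∈ S`, is within `ε` of `1`.

Method: the difference of the means over intervals of length `y` and `N / (log N) ^ B` is a sum over the frequencies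
`r / M`, `M = g ^ (k + 1)`, of the exponential sum over primes, the exponential sum over `S` and the kernel. The second
is a product over the places; its `L¹` norm over all frequencies is at most `M ^ δ |S|` with `δ < 1 / 5`, and over the
frequencies near the fractions with denominator at most `Q`, at distance at most `T / M`, it is at most
`(Q ^ 2 T) ^ δ |S|`. The first is `O (M ^ (4 / 5 + o(1)) + M (log M) ^ 7 / (q (1 + M |β|)) ^ (1 / 2))` at `a / q + β`.
-/

namespace Pool.Agent.Results.MP_293bbf_nt.EveryTranslate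

open Finset

/-- `R(x, y) = (π(x + y) - π(x)) / (y / log x)` -/
noncomputable def R (x y : ℝ) : ℝ :=
  ((Nat.primeCounting ⌊x + y⌋₊ : ℝ) - Nat.primeCounting ⌊x⌋₊) / (y / Real.log x)

/-- the integers below `g ^ k` whose `i`-th digit in base `g` belongs to `D i` for all `i < k` -/
def digs (g : ℕ) (D : ℕ → Finset ℕ) (k : ℕ) : Finset ℕ :=
  (range (g ^ k)).filter (fun s => ∀ i < k, s / g ^ i % g ∈ D i)

/-- For `θ > 4 / 5` and `t` there is a `g₀` such that for every base `g ≥ g₀` and every `ε > 0` there is a `K` such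
that for all `k ≥ K` and all sets of digits `D i`, `i < k`, with at least `g ^ θ` elements and at most `t` elements `d`
with `d + 1 ∉ D i`: for every `1 ≤ b ≤ g ^ k` and all real `y` with `(log (g ^ k)) ^ K ≤ y ≤ g ^ k` the mean of
`R(s + b, y)` over the `s < g ^ k` with digits in the `D i` is within `ε` of `1`. -/
theorem result (θ : ℝ) (t : ℕ) (hθ : 4 / 5 < θ) : ∃ g₀ : ℕ, ∀ g : ℕ, g₀ ≤ g → ∀ ε : ℝ, 0 < ε → ∃ K : ℕ, ∀ k : ℕ, K ≤ k →
    ∀ D : ℕ → Finset ℕ, (∀ i < k, D i ⊆ range g ∧ (g : ℝ) ^ θ ≤ (D i).card ∧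
      ((D i).filter (fun d => d + 1 ∉ D i)).card ≤ t) →
    ∀ b : ℕ, 1 ≤ b → b ≤ g ^ k → ∀ y : ℝ, Real.log ((g : ℝ) ^ k) ^ K ≤ y → y ≤ (g : ℝ) ^ k →
      |(∑ s ∈ digs g D k, R ((s + b : ℕ) : ℝ) y) / (digs g D k).card - 1| ≤ ε := by
  have h1 := Pool.Agent.K1H10.RD.t_DSET
  have h2 := Pool.Agent.K1H26.RD.t_MAIN (Pool.Agent.K1H92.RD.t_SHELL h1) (Pool.Agent.K1H33.RD.t_L1 h1)
    Pool.Agent.K1H40.RD.t_SP Pool.Agent.K1H40.RD.t_KER
  have h3 := Pool.Agent.K1H33.RD.t_FIN (Pool.Agent.K1H33.RD.t_THETA h2 h1) Pool.Agent.K1H33.RD.t_MAJ h1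
  obtain ⟨g₀, hg₀⟩ := h3 θ t hθ
  refine ⟨max g₀ 2, fun g hg ε hε => ?_⟩
  have hg2 : 2 ≤ g := (le_max_right _ _).trans hg
  obtain ⟨K, hK⟩ := hg₀ g ((le_max_left _ _).trans hg) ε hε
  refine ⟨K, fun k hk D hD b hb1 hb2 y hy1 hy2 => ?_⟩
  have h4 := hK k hk D (fun i hi => (hD i hi).1) (fun i hi => (hD i hi).2.1) (fun i hi => (hD i hi).2.2) b hb1 hb2 y hy1 hy2
  rw [Pool.Agent.K1H84.RD.dset_eq g D hg2 k fun i hi => (hD i hi).1] at h4
  exact h4

end Pool.Agent.Results.MP_293bbf_nt.EveryTranslate
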