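import Mathlib
import Pool.Agent.K1H84.TF.Expl

set_option autoImplicit false

/-!
# `R(x, y)` on average over almost all translates of thin families, for all `y` above a power of the logarithm

`R(x, y) = (π(x + y) - π(x)) / (y / log x)`. Let `s i`, `i ∈ I`, be a finite family of integers, `M` a modulus. For
almost all translates `b` modulo `M` (with at most `M / (log M) ^ C` exceptions) the mean of `R(x, y)` over the points
`x = (s i + b) mod M`, `0 ≤ x < M`, is within `ε` of `1`, simultaneously for all real `y` with `(log M) ^ K ≤ y ≤ M`: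

* if the family has a small large spectrum: at most `(log M) ^ C'` frequencies `t` modulo `M` have
  `|∑ e (t s i / M)| > |I| / (log M) ^ (C + 5)`;
* in particular if for some `h` the additive energy of order `h` modulo `M` (the number of solutions of
  `s (i 1) + ... + s (i h) ≡ s (j 1) + ... + s (j h)`) is at most `(log M) ^ C' |I| ^ (2 h) / M`; for `h = 1` these are
  the sets of at least `M / (log M) ^ C'` residues, for `h = 2` for instance all Sidon sets of `M ^ (1/2) / (log M) ^ C'`
  residues and the squares;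
* for prime `M` and the explicit families of only `(log M) ^ O(1)` points `c + u / p mod M`, `p ≤ (log M) ^ A` prime,
  `u ≤ (log M) ^ (2 A)`.

Method: the variance over `b` of the difference of the mean values over intervals of length `y` and of length
`M / (log M) ^ B` is a sum over the frequencies. At the frequencies of the large spectrum the transform of the
difference is small, by Vinogradov's bound for the exponential sum over primes together with the decay of the kernel
(starting library `Pool.Agent.W301.SS`), at the other frequencies the sum over the family is small. The explicit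
families (Razborov, Szemeredi, Wigderson) and their exponential sums are from `Pool.Agent.K1H51.LD`.
-/

namespace Pool.Agent.Results.MP_293bbf_nt.ThinFamilies

open Finset

/-- `R(x, y) = (π(x + y) - π(x)) / (y / log x)` -/
noncomputable def R (x y : ℝ) : ℝ :=
  ((Nat.primeCounting ⌊x + y⌋₊ : ℝ) - Nat.primeCounting ⌊x⌋₊) / (y / Real.log x)

/-- the mean of `R(x, y)` over the points `x = (s i + b) mod M`, `i ∈ I`, of the translate by `b` -/
noncomputable def mean {ι : Type} (M : ℕ) (I : Finset ι) (s : ι → ℤ) (b : ℕ) (y : ℝ) : ℝ :=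
  (∑ i ∈ I, R (((s i + b) % M : ℤ) : ℝ) y) / I.card

open Classical in
/-- the translates `b` modulo `M` for which the mean differs by more than `ε` from `1` for some real `y` with
`(log M) ^ K ≤ y ≤ M` -/
noncomputable def exceptions {ι : Type} (M : ℕ) (I : Finset ι) (s : ι → ℤ) (ε : ℝ) (K : ℕ) : Finset ℕ :=
  (range M).filter (fun b => ∃ y : ℝ, Real.log M ^ K ≤ y ∧ y ≤ M ∧ ε < |mean M I s b y - 1|)

/-- the large spectrum: the frequencies `t` modulo `M` for which the sum of `e (t (s i) / M)` over `i ∈ I` has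
absolute value larger than `η |I|` -/
noncomputable def spectrum {ι : Type} (M : ℕ) (I : Finset ι) (s : ι → ℤ) (η : ℝ) : Finset ℕ :=
  (range M).filter (fun t : ℕ => η * I.card <
    ‖∑ i ∈ I, Complex.exp (2 * Real.pi * Complex.I * (((s i : ℝ) * ((t : ℝ) / M) : ℝ) : ℂ))‖)

open Classical in
/-- the additive energy of order `h` modulo `M` -/
noncomputable def energy {ι : Type} (M h : ℕ) (I : Finset ι) (s : ι → ℤ) : ℕ :=
  (((Fintype.piFinset (fun _ : Fin h => I)) ×ˢ (Fintype.piFinset (fun _ : Fin h => I))).filter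
    (fun x => (M : ℤ) ∣ (∑ l, s (x.1 l)) - ∑ l, s (x.2 l))).card

/-- the pairs `(p, u)` with a prime `p ≤ P` and `1 ≤ u ≤ S` -/
def pairs (P S : ℕ) : Finset (ℕ × ℕ) := ((Icc 1 P).filter Nat.Prime) ×ˢ (Icc 1 S)

/-- the least non-negative residue of `c + u / p` modulo `M`, for the pair `(p, u)` -/
def frac (M : ℕ) (c : ℤ) (j : ℕ × ℕ) : ℤ := (c + j.2 * (((j.1 : ZMod M)⁻¹.val : ℕ) : ℤ)) % M

theorem result (ε : ℝ) (hε : 0 < ε) (C : ℕ) :
    (∀ C' : ℕ, ∃ K : ℕ, ∀ M : ℕ, K ≤ M → ∀ (ι : Type) (I : Finset ι) (s : ι → ℤ), I.Nonempty →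
      ((spectrum M I s (1 / Real.log M ^ (C + 5))).card : ℝ) ≤ Real.log M ^ C' →
      ((exceptions M I s ε K).card : ℝ) ≤ M / Real.log M ^ C) ∧
    (∀ C' h : ℕ, ∃ K : ℕ, ∀ M : ℕ, K ≤ M → ∀ (ι : Type) (I : Finset ι) (s : ι → ℤ), I.Nonempty →
      (energy M h I s : ℝ) * M ≤ Real.log M ^ C' * (I.card : ℝ) ^ (2 * h) →
      ((exceptions M I s ε K).card : ℝ) ≤ M / Real.log M ^ C) ∧
    (∃ A K : ℕ, ∀ M : ℕ, K ≤ M → M.Prime → ∀ c : ℤ,
      ((exceptions M (pairs ⌊Real.log M ^ A⌋₊ ⌊Real.log M ^ (2 * A)⌋₊) (frac M c) ε K).card : ℝ) ≤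
        M / Real.log M ^ C) := by
  classical
  have hexc : ∀ (ι : Type) (M : ℕ) (I : Finset ι) (s : ι → ℤ) (K : ℕ),
      exceptions M I s ε K = Pool.Agent.K1H84.TF.exceptions M I s ε K := fun _ _ _ _ _ => rfl
  refine ⟨fun C' => ?_, fun C' h => ?_, ?_⟩
  · obtain ⟨K, hK⟩ := Pool.Agent.K1H84.TF.general ε hε C C'
    refine ⟨K, fun M hM ι I s hI hS => ?_⟩
    rw [hexc]
    refine hK M hM ι I s hI _ hS fun c hc hcS => ?_
    unfold spectrum at hcS
    rw [mem_filter, not_and, not_lt] at hcS
    exact hcS hc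
  · obtain ⟨K, hK⟩ := Pool.Agent.K1H84.TF.energy ε hε C C' h
    refine ⟨K, fun M hM ι I s hI hE => ?_⟩
    rw [hexc]
    refine hK M hM ι I s hI (le_trans (le_of_eq ?_) hE)
    unfold energy
    congr
  · exact Pool.Agent.K1H84.TF.explicit ε hε C

end Pool.Agent.Results.MP_293bbf_nt.ThinFamilies
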